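import Pool.Agent.X172.GR.Stm

/-! Project GR (MP_eff4ce_al): parts ADJ and ONE. -/

set_option autoImplicit false

namespace Pool.Agent.X332.GR

open Pool.Agent.X172.GR

variable {n : ℕ} {T : ℕ → Fin 6}

theorem rd_append {u w : List Ltr} : ∀ {i : ℕ},
    Rd T i (u ++ w) ↔ Rd T i u ∧ Rd T (i + u.length) w := by
  induction u with
  | nil =>
    intro i
    simp [Rd]
  | cons a u ih =>
    intro i
    have e : i + (u.length + 1) = i + 1 + u.length := by ring
    rw [List.cons_append, List.length_cons, e]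
    change (_ ∧ _) ↔ (_ ∧ _) ∧ _
    rw [ih, and_assoc]

theorem readable_suffix {u w : List Ltr} (h : Readable T w) (hu : u <:+ w) : Readable T u := by
  obtain ⟨t, rfl⟩ := hu
  obtain ⟨i, hi⟩ := h
  exact ⟨_, (rd_append.1 hi).2⟩

theorem readable_prefix {u w : List Ltr} (h : Readable T w) (hu : u <+: w) : Readable T u := by
  obtain ⟨t, rfl⟩ := hu
  obtain ⟨i, hi⟩ := h
  exact ⟨_, (rd_append.1 hi).1⟩

theorem le_left (h : S_LEC) (hn : 4 ≤ n) (hT : Ty n T) (s : List Ltr) {u w : List Ltr}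
    (h1 : LE n T u w) : LE n T (s ++ u) (s ++ w) := by
  induction s with
  | nil => exact h1
  | cons a s ih => exact ((h n T hn hT).2 _ _ a ih).1

theorem re_right (h : S_RER) (hn : 4 ≤ n) (hT : Ty n T) (s : List Ltr) : ∀ {u w : List Ltr},
    RE n T u w → RE n T (u ++ s) (w ++ s) := by
  induction s with
  | nil =>
    intro u w h1
    rwa [List.append_nil, List.append_nil]
  | cons a s ih =>
    intro u w h1
    have h2 := ih (h n T hn hT u w a h1)
    rwa [List.append_assoc, List.append_assoc] at h2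

theorem suffix_eq {z z' w : List Ltr} (h : z <:+ w) (h' : z' <:+ w) (hl : z.length = z'.length) :
    z = z' :=
  (List.suffix_of_suffix_length_le h h' hl.le).eq_of_length hl

theorem prefix_eq {z z' w : List Ltr} (h : z <+: w) (h' : z' <+: w) (hl : z.length = z'.length) :
    z = z' :=
  (List.prefix_of_prefix_length_le h h' hl.le).eq_of_length hl

theorem le_of (h : S_LEC) (hn : 4 ≤ n) (hT : Ty n T) {s κ : List Ltr} (hκ : ¬ Readable T κ)
    (hE : E n T (s ++ κ) (κ ++ s)) : LE n T (s ++ κ) κ :=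
  (h n T hn hT).1.trans hE.1 (Or.inr ⟨κ, List.prefix_append _ _, List.prefix_rfl, Or.inl hκ⟩)

theorem re_of (h : S_REQ) (hn : 4 ≤ n) (hT : Ty n T) {s κ : List Ltr} (hκ : ¬ Readable T κ)
    (hE : E n T (s ++ κ) (κ ++ s)) : RE n T (κ ++ s) κ :=
  (h n T hn hT).1.trans ((h n T hn hT).1.symm hE.2)
    (Or.inr (Or.inl ⟨κ, List.suffix_append _ _, List.suffix_rfl, hκ⟩))

theorem t_ONE : S_ONE := by
  intro n T hn hT hLEC hREQ _ hRER s κ _ _ hκ hss hE
  have h1 := le_of hLEC hn hT hκ hE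
  have h2 := re_of hREQ hn hT hκ hE
  constructor
  · have h3 := (hLEC n T hn hT).1.trans (le_left hLEC hn hT s h1) h1
    rw [← List.append_assoc] at h3
    exact (hLEC n T hn hT).1.trans
      (Or.inr ⟨s ++ s, List.prefix_rfl, List.prefix_append _ _, Or.inl hss⟩) h3
  · have h3 := (hREQ n T hn hT).1.trans (re_right hRER hn hT s h2) h2
    rw [List.append_assoc] at h3
    exact (hREQ n T hn hT).1.trans
      (Or.inr (Or.inl ⟨s ++ s, List.suffix_rfl, List.suffix_append _ _, hss⟩)) h3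

theorem longest {s : List Ltr} (hs : Readable T s) : ∀ {κ : List Ltr}, ¬ Readable T κ → s <:+ κ →
    ∃ y a v, κ = y ++ a :: v ∧ Readable T v ∧ ¬ Readable T (a :: v) ∧ s <:+ v := by
  intro κ
  induction κ with
  | nil =>
    intro h _
    exact absurd ⟨0, trivial⟩ h
  | cons b κ ih =>
    intro h1 h2
    have h3 : s <:+ κ := by
      rcases List.suffix_cons_iff.1 h2 with h3 | h3
      · exact absurd (h3 ▸ hs) h1
      · exact h3
    by_cases h4 : Readable T κ
    · exact ⟨[], b, κ, rfl, h4, h1, h3⟩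
    · obtain ⟨y, a, v, h5, h6⟩ := ih h4 h3
      exact ⟨b :: y, a, v, by rw [h5]; rfl, h6⟩

/-- data of a loop -/
theorem suf_loop {s z : List Ltr} (hs : Readable T s) (hl : n ≤ s.length) (hd : n ∣ s.length)
    (hz : z <:+ s) (hzl : z.length = n) : Suf n T s none 0 z :=
  ⟨s, hs, hl, Nat.mod_eq_zero_of_dvd hd, hz, hzl, Or.inl ⟨rfl, rfl⟩⟩

theorem take_pre (hn : 4 ≤ n) {s κ : List Ltr} (hs : Readable T s) (hl : n ≤ s.length)
    (h : LE n T (s ++ κ) κ) : s.take n <+: κ := by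
  rcases h with h | ⟨p, h1, h2, h3⟩
  · have := congrArg List.length h
    rw [List.length_append] at this
    omega
  · rcases h3 with h3 | h3
    · rcases List.prefix_or_prefix_of_prefix h1 (List.prefix_append s κ) with h4 | h4
      · exact absurd (readable_prefix hs h4) h3
      · exact ((List.take_prefix n s).trans h4).trans h2
    · have h4 : p <+: s := List.prefix_of_prefix_length_le h1 (List.prefix_append s κ) (by omega)
      have h5 : p = s.take n := prefix_eq h4 (List.take_prefix n s) (by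
        rw [List.length_take]
        omega)
      exact h5 ▸ h2

theorem suf_of (hn : 4 ≤ n) {s κ z : List Ltr} (hs : Readable T s) (hl : n ≤ s.length)
    (hκ : ¬ Readable T κ) (hz : z <:+ s) (hzl : z.length = n) (h : RE n T (κ ++ s) κ) :
    ∃ h m z', Suf n T κ h m z' ∧ Zeq n T h m z z' := by
  rcases h with h | ⟨q, h1, h2, h3⟩ | ⟨h, m, z2, z2', h1, h2, h3⟩
  · have := congrArg List.length h
    rw [List.length_append] at this
    omega
  · have h5 : s <:+ κ := by
      rcases List.suffix_or_suffix_of_suffix h1 (List.suffix_append κ s) with h4 | h4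
      · exact absurd (readable_suffix hs h4) h3
      · exact h4.trans h2
    obtain ⟨y, a, v, h6, h7, h8, h9⟩ := longest hs hκ h5
    exact ⟨some a, v.length % n, z, ⟨v, h7, hl.trans h9.length_le, rfl, hz.trans h9, hzl,
      Or.inr ⟨a, y, rfl, h6, h8⟩⟩, Or.inl rfl⟩
  · have h4 : z2 = z := by
      obtain ⟨v, _, _, _, h5, h6, h7⟩ := h1
      have h8 : v <:+ κ ++ s := by
        rcases h7 with ⟨_, h7⟩ | ⟨a, y, _, h7, _⟩
        · rw [h7]
        · rw [h7]
          exact (List.suffix_cons a v).trans (List.suffix_append _ _)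
      exact suffix_eq (h5.trans h8) (hz.trans (List.suffix_append κ s)) (h6.trans hzl.symm)
    rw [h4] at h3
    exact ⟨h, m, z2', h2, h3⟩

theorem suf_lt (hn : 4 ≤ n) {w z : List Ltr} {h : Option Ltr} {m : ℕ} (h1 : Suf n T w h m z) :
    m < n := by
  obtain ⟨v, _, _, h2, _⟩ := h1
  rw [← h2]
  exact Nat.mod_lt _ (by omega)

/-- both neighbours -/
theorem nb (hLEC : S_LEC) (hREQ : S_REQ) (hn : 4 ≤ n) (hT : Ty n T) {s κ s1 z z1 : List Ltr}
    (hs : Readable T s) (hl : n ≤ s.length) (hd : n ∣ s.length) (hz : z <:+ s) (hzl : z.length = n)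
    (hs1 : Readable T s1) (hl1 : n ≤ s1.length) (hd1 : n ∣ s1.length) (hz1 : z1 <:+ s1)
    (hzl1 : z1.length = n) (hκ : ¬ Readable T κ) (hE : E n T (s ++ κ) (κ ++ s))
    (hE1 : E n T (s1 ++ κ) (κ ++ s1)) (hne : ¬ E n T s s1) :
    ∃ m z', Suf n T κ (some (5, true)) m z' ∧ Zeq n T (some (5, true)) m z z' ∧
      Flip n T m z z1 := by
  obtain ⟨h, m, z', h1, h2⟩ := suf_of hn hs hl hκ hz hzl (re_of hREQ hn hT hκ hE)
  obtain ⟨h', m', z'', h1', h2'⟩ := suf_of hn hs1 hl1 hκ hz1 hzl1 (re_of hREQ hn hT hκ hE1)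
  obtain ⟨_, hu, htr, hsy, _⟩ := hREQ n T hn hT
  obtain ⟨e1, e2, e3⟩ := hu _ _ _ _ _ _ _ h1 h1'
  subst e1 e2 e3
  have h3 : Zeq n T h m z z1 := htr _ _ _ _ _ h2 (hsy _ _ _ _ h2')
  rcases h3 with h3 | ⟨h3, h4⟩
  · exfalso
    apply hne
    subst h3
    refine ⟨Or.inr ⟨s.take n, List.take_prefix _ _, ?_, Or.inr ?_⟩,
      Or.inr (Or.inr ⟨none, 0, z, z, suf_loop hs hl hd hz hzl, suf_loop hs1 hl1 hd1 hz1 hzl1,
        Or.inl rfl⟩)⟩
    · have h5 : s.take n = s1.take n :=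
        prefix_eq (take_pre hn hs hl (le_of hLEC hn hT hκ hE))
          (take_pre hn hs1 hl1 (le_of hLEC hn hT hκ hE1)) (by
            rw [List.length_take, List.length_take]
            omega)
      rw [h5]
      exact List.take_prefix _ _
    · rw [List.length_take]
      omega
  · subst h3
    exact ⟨m, z', h1, h2, h4⟩

theorem t_ADJ : S_ADJ := by
  intro n T hn hT hLEC hREQ hREL hRER hLOOP s κ κ' s1 s1' hs0 hκ0 hκ0' hs10 hs10' hs hs1 hs1' hκ hκ'
    hss1 hss1' hE hE1 hE' hE1' hne hne' hκκ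
  have hss : Readable T (s ++ s) := by
    by_contra hcon
    have h1 := t_ONE n T hn hT hLEC hREQ hREL hRER s κ hs0 hs hκ hcon hE
    have h2 := t_ONE n T hn hT hLEC hREQ hREL hRER s κ' hs0 hs hκ' hcon hE'
    exact hκκ ⟨(hLEC n T hn hT).1.trans ((hLEC n T hn hT).1.symm h1.1) h2.1,
      (hREQ n T hn hT).1.trans ((hREQ n T hn hT).1.symm h1.2) h2.2⟩
  have hlen : ∀ s : List Ltr, s ≠ [] → Readable T (s ++ s) → n ∣ s.length ∧ n ≤ s.length ∧
      s.drop (s.length - n) <:+ s ∧ (s.drop (s.length - n)).length = n := by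
    intro s h1 h2
    have h3 := (hLOOP n T hn hT s h1 h2).1
    have h4 : n ≤ s.length := Nat.le_of_dvd (List.length_pos_iff.2 h1) h3
    refine ⟨h3, h4, List.drop_suffix _ _, ?_⟩
    rw [List.length_drop]
    omega
  obtain ⟨a1, a2, a3, a4⟩ := hlen s hs0 hss
  obtain ⟨b1, b2, b3, b4⟩ := hlen s1 hs10 hss1
  obtain ⟨c1, c2, c3, c4⟩ := hlen s1' hs10' hss1'
  obtain ⟨m, y, k1, k2, k3⟩ := nb hLEC hREQ hn hT hs a2 a1 a3 a4 hs1 b2 b1 b3 b4 hκ hE hE1 hne
  obtain ⟨m', y', k1', k2', k3'⟩ :=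
    nb hLEC hREQ hn hT hs a2 a1 a3 a4 hs1' c2 c1 c3 c4 hκ' hE' hE1' hne'
  refine ⟨_, _, _, m, m', ⟨a3, a4, a1⟩, ⟨b3, b4, b1⟩, ⟨c3, c4, c1⟩, k3, k3', suf_lt hn k1,
    suf_lt hn k1', ?_⟩
  intro hmm
  subst hmm
  obtain ⟨_, _, htr, hsy, _⟩ := hREQ n T hn hT
  apply hκκ
  refine ⟨Or.inr ⟨s.take n, take_pre hn hs a2 (le_of hLEC hn hT hκ hE),
    take_pre hn hs a2 (le_of hLEC hn hT hκ' hE'), Or.inr ?_⟩,
    Or.inr (Or.inr ⟨_, _, _, _, k1, k1', htr _ _ _ _ _ (hsy _ _ _ _ k2) k2'⟩)⟩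
  rw [List.length_take]
  omega

end Pool.Agent.X332.GR
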